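import Pool.Agent.Y793.Dy.Stm

/-!
# Project DY, file WIN: greedy steps, plain and in a window with reserved indices
-/

set_option autoImplicit false

namespace Pool.Agent.Y391.Dy

open Finset
open Pool.Agent.Helper352.Bed
open Pool.Agent.Y793.Dy

theorem cov_mono {c : ℕ → ℕ} {P Q : ℕ → Prop} {D lo : ℕ} {w w' : ℝ}
    (h : Cov c P D lo w) (hPQ : ∀ i, P i → Q i) (hw : w' ≤ w) : Cov c Q D lo w' := by
  intro y h1 h2
  obtain ⟨s, hs, h3, h4⟩ := h y h1 (by linarith)
  exact ⟨s, hs.mono hPQ, h3, h4⟩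

theorem cov_add {c : ℕ → ℕ} {P : ℕ → Prop} {D lo : ℕ} {w : ℝ} (f : ℕ)
    (h : Cov c P D lo w) (hf : ∀ i, P i → i < f) (hw : (c f : ℝ) ≤ w) :
    Cov c (fun i => P i ∨ i = f) D lo (w + c f) := by
  intro y h1 h2
  by_cases h3 : (y : ℝ) ≤ lo + w
  · obtain ⟨s, hs, h4, h5⟩ := h y h1 h3
    exact ⟨s, hs.mono (fun i hi => Or.inl hi), h4, h5⟩
  · push Not at h3
    have h4 : lo + c f ≤ y := by
      have : ((lo + c f : ℕ) : ℝ) ≤ y := by push_cast; linarith
      exact_mod_cast this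
    have h5 : ((y - c f : ℕ) : ℝ) = y - c f := by
      rw [Nat.cast_sub (by omega)]
    obtain ⟨s, hs, h6, h7⟩ := h (y - c f) (by omega) (by rw [h5]; linarith)
    refine ⟨s + c f, ?_, by omega, by omega⟩
    have hf' : SS c (fun i => i = f) (c f) := ⟨{f}, by simp, by simp⟩
    refine SS.add (fun i hi hi' => ?_) hs hf'
    have := hf i hi
    omega

section cc

variable {p q : ℕ} {θ : ℝ}

theorem cc_even_le (hθ : 0 ≤ θ) (k : ℕ) :
    ((cc (p * θ) (q * θ) (2 * k) : ℕ) : ℝ) ≤ p * (θ * 2 ^ k) := by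
  rw [cc_even]
  refine (Nat.floor_le (by positivity)).trans (le_of_eq (by ring))

theorem cc_even_ge (k : ℕ) :
    (p : ℝ) * (θ * 2 ^ k) - 1 ≤ ((cc (p * θ) (q * θ) (2 * k) : ℕ) : ℝ) := by
  rw [cc_even]
  have := (Nat.sub_one_lt_floor ((2 : ℝ) ^ k * (p * θ))).le
  have h2 : (2 : ℝ) ^ k * (p * θ) = p * (θ * 2 ^ k) := by ring
  rw [h2] at this ⊢
  exact this

theorem cc_odd_le (hθ : 0 ≤ θ) (k : ℕ) :
    ((cc (p * θ) (q * θ) (2 * k + 1) : ℕ) : ℝ) ≤ q * (θ * 2 ^ k) := by
  rw [cc_odd]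
  refine (Nat.floor_le (by positivity)).trans (le_of_eq (by ring))

theorem cc_odd_ge (k : ℕ) :
    (q : ℝ) * (θ * 2 ^ k) - 1 ≤ ((cc (p * θ) (q * θ) (2 * k + 1) : ℕ) : ℝ) := by
  rw [cc_odd]
  have := (Nat.sub_one_lt_floor ((2 : ℝ) ^ k * (q * θ))).le
  have h2 : (2 : ℝ) ^ k * (q * θ) = q * (θ * 2 ^ k) := by ring
  rw [h2] at this ⊢
  exact this

end cc

theorem t_PLAIN : S_PLAIN := by
  intro p q L n D lo θ P hp hpq hθ hL hP hcov
  have hp' : (2 : ℝ) ≤ p := by exact_mod_cast hp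
  have hq' : (p : ℝ) + 1 ≤ q := by exact_mod_cast hpq
  have hθ0 : (0 : ℝ) ≤ θ := by linarith
  induction n with
  | zero =>
    exact cov_mono hcov (fun i hi => Or.inl hi) (le_of_eq (by simp))
  | succ n ih =>
    set k := L + n with hk
    have hx4 : 4 ≤ θ * 2 ^ k := by
      have h1 : (2 : ℝ) ^ L ≤ 2 ^ k := pow_le_pow_right₀ (by norm_num) (by omega)
      have := mul_le_mul_of_nonneg_left h1 hθ0
      linarith
    set x : ℝ := θ * 2 ^ k with hx
    have e1 := cc_even_le (p := p) (q := q) hθ0 k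
    have e2 := cc_even_ge (p := p) (q := q) (θ := θ) k
    have e3 := cc_odd_le (p := p) (q := q) hθ0 k
    have e4 := cc_odd_ge (p := p) (q := q) (θ := θ) k
    rw [← hx] at e1 e2 e3 e4
    have a1 := cov_add (2 * k) ih (fun i hi => by
      rcases hi with hi | hi
      · have := hP i hi; omega
      · omega) (by nlinarith)
    have a2 := cov_add (2 * k + 1) a1 (fun i hi => by
      rcases hi with (hi | hi) | hi
      · have := hP i hi; omega
      · omega
      · omega) (by nlinarith)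
    refine cov_mono a2 (fun i hi => ?_) ?_
    · rcases hi with ((hi | hi) | hi) | hi
      · exact Or.inl hi
      · right; omega
      · right; omega
      · right; omega
    · have e5 : (2 : ℝ) ^ (L + (n + 1)) = 2 * 2 ^ k := by
        rw [hk, ← add_assoc, pow_succ]; ring
      rw [e5]
      have e6 : θ * (2 * 2 ^ k) = 2 * x := by rw [hx]; ring
      rw [e6]
      nlinarith

/-- the width at the level `i` of the window -/
noncomputable def wd (p q Y : ℕ) (x : ℝ) (i : ℕ) : ℝ :=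
  ((p : ℝ) + q) * x * 2 ^ i - x / 2 - 2 * i -
    x * ((if i = 0 then 0 else (p : ℝ)) + q * ((Y % 2 ^ i : ℕ) : ℝ))

theorem wd_ge {p q Y i : ℕ} {x : ℝ} (hpq : p < q) (hx : 4 * (i : ℝ) ≤ x) :
    (p : ℝ) * x * 2 ^ i ≤ wd p q Y x i := by
  have hq' : (p : ℝ) + 1 ≤ q := by exact_mod_cast hpq
  have hx0 : (0 : ℝ) ≤ x := le_trans (by positivity) hx
  have hY : ((Y % 2 ^ i : ℕ) : ℝ) + 1 ≤ 2 ^ i := by
    have := Nat.mod_lt Y (Nat.pos_of_ne_zero (pow_ne_zero i (two_ne_zero)))
    have h2 : Y % 2 ^ i + 1 ≤ 2 ^ i := this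
    exact_mod_cast h2
  have h1 : (if i = 0 then (0 : ℝ) else (p : ℝ)) ≤ p := by
    split_ifs
    · positivity
    · exact le_rfl
  have h2 : (q : ℝ) * ((Y % 2 ^ i : ℕ) : ℝ) ≤ q * 2 ^ i - q := by
    have := mul_le_mul_of_nonneg_left hY (Nat.cast_nonneg q : (0 : ℝ) ≤ q)
    linarith
  have h3 : x * ((if i = 0 then (0 : ℝ) else (p : ℝ)) + q * ((Y % 2 ^ i : ℕ) : ℝ)) ≤
      x * (p + (q * 2 ^ i - q)) := mul_le_mul_of_nonneg_left (by linarith) hx0
  unfold wd
  nlinarith

/-- one level of the window -/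
theorem win_step {p q u Y j D lo i : ℕ} {θ : ℝ} {P : ℕ → Prop} (hp : 2 ≤ p) (hpq : p < q)
    (hq2 : q + 1 ≤ 2 * p) (hθ : 1 ≤ θ) (hx : (4 * u + 4 : ℝ) ≤ θ * 2 ^ j)
    (hP : ∀ i, P i → i < 2 * j) (hi : i < u)
    (hcov : Cov (cc (p * θ) (q * θ))
      (fun l => P l ∨ (2 * j ≤ l ∧ l < 2 * (j + i) ∧ ¬ Rsv Y u j l)) D lo
      (wd p q Y (θ * 2 ^ j) i)) :
    Cov (cc (p * θ) (q * θ))
      (fun l => P l ∨ (2 * j ≤ l ∧ l < 2 * (j + (i + 1)) ∧ ¬ Rsv Y u j l)) D lo
      (wd p q Y (θ * 2 ^ j) (i + 1)) := by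
  have hp' : (2 : ℝ) ≤ p := by exact_mod_cast hp
  have hq' : (p : ℝ) + 1 ≤ q := by exact_mod_cast hpq
  have hq2' : (q : ℝ) + 1 ≤ 2 * p := by exact_mod_cast hq2
  have hiu : (i : ℝ) + 1 ≤ u := by exact_mod_cast hi
  have hθ0 : (0 : ℝ) ≤ θ := by linarith
  set x : ℝ := θ * 2 ^ j with hxd
  have hxi : 4 * (i : ℝ) + 8 ≤ x := by linarith
  have hx0 : (0 : ℝ) ≤ x := by
    have : (0 : ℝ) ≤ i := Nat.cast_nonneg i
    linarith
  have h2i : (1 : ℝ) ≤ 2 ^ i := one_le_pow₀ (by norm_num)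
  have hxk : θ * 2 ^ (j + i) = x * 2 ^ i := by rw [hxd, pow_add]; ring
  have e1 := cc_even_le (p := p) (q := q) hθ0 (j + i)
  have e2 := cc_even_ge (p := p) (q := q) (θ := θ) (j + i)
  have e3 := cc_odd_le (p := p) (q := q) hθ0 (j + i)
  have e4 := cc_odd_ge (p := p) (q := q) (θ := θ) (j + i)
  rw [hxk] at e1 e2 e3 e4
  have hwge := wd_ge (Y := Y) (p := p) (q := q) (i := i) (x := x) hpq (by linarith)
  have hmod : Y % 2 ^ (i + 1) = Y % 2 ^ i + 2 ^ i * (Y.testBit i).toNat := by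
    rw [Nat.mod_pow_succ, Nat.toNat_testBit]
  -- first part: the even index
  obtain ⟨w1, hw1, hc1⟩ : ∃ w1 : ℝ,
      wd p q Y x i + (if i = 0 then 0 else (p : ℝ) * (x * 2 ^ i) - 1) ≤ w1 ∧
      Cov (cc (p * θ) (q * θ))
        (fun l => P l ∨ (2 * j ≤ l ∧ l < 2 * (j + i) + 1 ∧ ¬ Rsv Y u j l)) D lo w1 := by
    by_cases hi0 : i = 0
    · refine ⟨wd p q Y x i, by rw [if_pos hi0]; linarith, cov_mono hcov (fun l hl => ?_) le_rfl⟩
      rcases hl with hl | ⟨h1, h2, h3⟩
      · exact Or.inl hl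
      · exact Or.inr ⟨h1, by omega, h3⟩
    · refine ⟨wd p q Y x i + (cc (p * θ) (q * θ) (2 * (j + i)) : ℕ), ?_, ?_⟩
      · rw [if_neg hi0]; linarith
      · refine cov_mono (cov_add (2 * (j + i)) hcov (fun l hl => ?_) ?_) (fun l hl => ?_) le_rfl
        · rcases hl with hl | hl
          · have := hP l hl; omega
          · omega
        · linarith
        · rcases hl with (hl | ⟨h1, h2, h3⟩) | hl
          · exact Or.inl hl
          · exact Or.inr ⟨h1, by omega, h3⟩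
          · refine Or.inr ⟨by omega, by omega, ?_⟩
            rintro (h | ⟨k, hk, -, h⟩ | h | h) <;> omega
  -- second part: the odd index
  by_cases hb : Y.testBit i = true
  · refine cov_mono hc1 (fun l hl => ?_) ?_
    · rcases hl with hl | ⟨h1, h2, h3⟩
      · exact Or.inl hl
      · exact Or.inr ⟨h1, by omega, h3⟩
    · refine le_trans ?_ hw1
      rw [hb] at hmod
      unfold wd
      rw [hmod, if_neg (Nat.succ_ne_zero i), pow_succ]
      push_cast
      simp only [Bool.toNat_true, Nat.cast_one, mul_one]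
      by_cases hi0 : i = 0
      · rw [if_pos hi0, if_pos hi0, hi0]
        simp only [pow_zero, Nat.mod_one, Nat.cast_zero]
        nlinarith
      · rw [if_neg hi0, if_neg hi0]
        nlinarith
  · have hb' : Y.testBit i = false := by simpa using hb
    have hw1' : (q : ℝ) * (x * 2 ^ i) ≤ w1 := by
      refine le_trans ?_ hw1
      by_cases hi0 : i = 0
      · rw [if_pos hi0, hi0]
        unfold wd
        simp only [pow_zero, Nat.mod_one, Nat.cast_zero, if_true]
        have h6 : 0 ≤ (p : ℝ) * x := by positivity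
        nlinarith
      · rw [if_neg hi0]
        have h5 : 0 ≤ x * 2 ^ i := by positivity
        nlinarith
    refine cov_mono (cov_add (2 * (j + i) + 1) hc1 (fun l hl => ?_) (by linarith))
      (fun l hl => ?_) ?_
    · rcases hl with hl | hl
      · have := hP l hl; omega
      · omega
    · rcases hl with (hl | ⟨h1, h2, h3⟩) | hl
      · exact Or.inl hl
      · exact Or.inr ⟨h1, by omega, h3⟩
      · refine Or.inr ⟨by omega, by omega, ?_⟩
        rintro (h | ⟨k, hk, hk2, h⟩ | h | h)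
        · omega
        · have : k = i := by omega
          rw [this] at hk2
          exact hb hk2
        · omega
        · omega
    · refine le_trans ?_ (add_le_add hw1 e4)
      rw [hb'] at hmod
      unfold wd
      rw [hmod, if_neg (Nat.succ_ne_zero i), pow_succ]
      push_cast
      simp only [Bool.toNat_false, Nat.cast_zero, mul_zero, add_zero]
      by_cases hi0 : i = 0
      · rw [if_pos hi0, if_pos hi0, hi0]
        simp only [pow_zero, Nat.mod_one, Nat.cast_zero]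
        nlinarith
      · rw [if_neg hi0, if_neg hi0]
        nlinarith

theorem t_WIN : S_WIN := by
  intro p q u Y R j D lo θ P hp hpq hq2 hu hY hYu hθ hx hP hcov
  have hp' : (2 : ℝ) ≤ p := by exact_mod_cast hp
  have hq' : (p : ℝ) + 1 ≤ q := by exact_mod_cast hpq
  have hall : ∀ i, i ≤ u → Cov (cc (p * θ) (q * θ))
      (fun l => P l ∨ (2 * j ≤ l ∧ l < 2 * (j + i) ∧ ¬ Rsv Y u j l)) D lo
      (wd p q Y (θ * 2 ^ j) i) := by
    intro i
    induction i with
    | zero =>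
      intro _
      refine cov_mono hcov (fun l hl => Or.inl hl) ?_
      unfold wd
      simp only [pow_zero, Nat.mod_one, Nat.cast_zero, if_true]
      nlinarith
    | succ i ih =>
      intro hi
      refine win_step hp hpq hq2 hθ ?_ hP (by omega) (ih (by omega))
      have : (0 : ℝ) ≤ R := Nat.cast_nonneg R
      linarith
  refine cov_mono (hall u le_rfl) (fun l hl => ?_) ?_
  · rcases hl with hl | ⟨h1, h2, h3⟩
    · exact Or.inl hl
    · exact Or.inr ⟨h1, by omega, h3⟩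
  · unfold wd
    rw [if_neg (by omega), Nat.mod_eq_of_lt hYu]
    set x : ℝ := θ * 2 ^ j with hxd
    have e1 : θ * 2 ^ (j + u + 1) = 2 * (x * 2 ^ u) := by
      rw [hxd, pow_succ, pow_add]; ring
    have e2 : (p : ℝ) + q * Y = p * 2 ^ u := by exact_mod_cast hY
    rw [e1, e2]
    have e3 : (2 : ℝ) ≤ 2 ^ u := by
      calc (2 : ℝ) = 2 ^ 1 := by norm_num
        _ ≤ 2 ^ u := pow_le_pow_right₀ (by norm_num) hu
    have hR : (0 : ℝ) ≤ R := Nat.cast_nonneg R
    have hu0 : (0 : ℝ) ≤ u := Nat.cast_nonneg u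
    have hx0 : 0 ≤ x := by linarith
    have e4 : 2 * x ≤ x * 2 ^ u := by nlinarith
    have e5 : (3 : ℝ) * (x * 2 ^ u) ≤ q * (x * 2 ^ u) := by
      apply mul_le_mul_of_nonneg_right
      · linarith
      · positivity
    nlinarith

end Pool.Agent.Y391.Dy
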